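import Mathlib
import Pool.Agent.V5helper39.CR.SIAc
import Pool.Agent.V5helper51.CR6.Stm

/-! JOB SAT of project CR6: as SIA, for a general exponent. -/

set_option autoImplicit false

namespace Pool.Agent.V5helper39.CR6

open Finset Pool.Agent.Q236.CR Pool.Agent.V5helper39.CR Pool.Agent.V5helper51.CR6
open Pool.Agent.H469R2.NK (e norm_e e_add e_zero e_nat)

theorem sat_L {ϑ : ℝ} (hϑ : 0 < ϑ) (hS : SICt ϑ) (B U : ℕ) : ∃ C X₀ : ℕ, ∀ x : ℕ, X₀ ≤ x → ∀ q : ℕ, 1 ≤ q → (q : ℝ) ≤ Real.log x ^ B →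
    ∀ a Y : ℕ, (x : ℝ) ^ ϑ * Real.log x ^ C ≤ Y → Y ≤ x →
    ∑ m ∈ Finset.Ioc x (2 * x), ‖∑ n ∈ Finset.Ioc m (m + Y),
      (ArithmeticFunction.vonMangoldt n : ℂ) * e ((a : ℝ) * n / q) - cc q a * Y‖ ^ 2 ≤
    x * (Y : ℝ) ^ 2 / Real.log x ^ U := by
  obtain ⟨C1, X1, h1⟩ := hS B (U + 2 * B + 1)
  refine ⟨max C1 (B + U + 3), max X1 (max ⌈Real.exp 1000⌉₊ 3), fun x hx q hq hqB a Y hY hYx => ?_⟩
  have : NeZero q := ⟨by omega⟩
  have hx1 : X1 ≤ x := (le_max_left _ _).trans hx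
  have hx2 : Real.exp 1000 ≤ x := (Nat.le_ceil _).trans (by
    exact_mod_cast le_trans ((le_max_left _ _).trans (le_max_right _ _)) hx)
  have hx3 : 3 ≤ x := le_trans ((le_max_right _ _).trans (le_max_right _ _)) hx
  have hxr : (3 : ℝ) ≤ x := by exact_mod_cast hx3
  set L := Real.log x with hLdef
  have hL : 1000 ≤ L := by
    rw [hLdef, ← Real.log_exp 1000]
    exact Real.log_le_log (Real.exp_pos _) hx2
  have hL1 : (1 : ℝ) ≤ L := by linarith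
  have hL0 : (0 : ℝ) < L := by linarith
  have hY1 : (x : ℝ) ^ ϑ * L ^ C1 ≤ Y := by
    refine le_trans ?_ hY
    have : L ^ C1 ≤ L ^ (max C1 (B + U + 3)) := pow_le_pow_right₀ hL1 (le_max_left _ _)
    gcongr
  have hY2 : L ^ (B + U + 3) ≤ Y := by
    refine le_trans ?_ hY
    have ha : L ^ (B + U + 3) ≤ L ^ (max C1 (B + U + 3)) := pow_le_pow_right₀ hL1 (le_max_right _ _)
    have hb : (1 : ℝ) ≤ (x : ℝ) ^ ϑ := Real.one_le_rpow (by linarith) hϑ.le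
    have hc : 0 ≤ L ^ (max C1 (B + U + 3)) := by positivity
    nlinarith
  have hq0 : (0 : ℝ) ≤ q := Nat.cast_nonneg _
  -- the bound of the terms not coprime to `q`
  set R : ℝ := 10 * L ^ (B + 2) with hR
  have hRb : ∀ m ∈ Ioc x (2 * x), ‖∑ n ∈ (Ioc m (m + Y)).filter (fun n => ¬ n.Coprime q),
      (ArithmeticFunction.vonMangoldt n : ℂ) * e ((a : ℝ) * n / q)‖ ≤ R := by
    intro m hm
    rw [mem_Ioc] at hm
    refine (noncop_bd q a m Y (3 * x) (by omega) (by omega)).trans ?_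
    have h3 : Real.log ((3 * x : ℕ) : ℝ) ≤ 2 * L := by
      push_cast
      rw [Real.log_mul (by norm_num) (by linarith)]
      have : Real.log 3 ≤ L := Real.log_le_log (by norm_num) hxr
      linarith
    have h4 : 0 ≤ Real.log ((3 * x : ℕ) : ℝ) := Real.log_natCast_nonneg _
    calc (q : ℝ) * ((2 * Real.log ((3 * x : ℕ) : ℝ) + 1) * Real.log ((3 * x : ℕ) : ℝ))
        ≤ L ^ B * ((2 * (2 * L) + 1) * (2 * L)) := by gcongr
      _ ≤ L ^ B * (10 * L ^ 2) := by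
          apply mul_le_mul_of_nonneg_left _ (by positivity)
          nlinarith
      _ = R := by rw [hR]; ring
  have hcard := card_char_le q
  have hcardR : (Fintype.card (DirichletCharacter ℂ q) : ℝ) ≤ L ^ B :=
    le_trans (by exact_mod_cast hcard) hqB
  have hcard0 : (0 : ℝ) ≤ (Fintype.card (DirichletCharacter ℂ q) : ℝ) := Nat.cast_nonneg _
  have step : ∀ m ∈ Ioc x (2 * x), ‖∑ n ∈ Finset.Ioc m (m + Y),
      (ArithmeticFunction.vonMangoldt n : ℂ) * e ((a : ℝ) * n / q) - cc q a * Y‖ ^ 2 ≤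
      2 * (L ^ B * ∑ χ : DirichletCharacter ℂ q, ‖∑ n ∈ Ioc m (m + Y), (cL χ n - (if χ = 1 then 1 else 0))‖ ^ 2) +
      2 * R ^ 2 := by
    intro m hm
    rw [win_L q a m Y]
    have e1 := norm_sum_sq_le (univ : Finset (DirichletCharacter ℂ q)) (dd q (ph q a))
      (fun χ => ∑ n ∈ Ioc m (m + Y), (cL χ n - (if χ = 1 then 1 else 0)))
      (fun χ _ => dd_norm q (ph q a) (fun n => (ph_norm q a n).le) χ)
    have e2 := hRb m hm
    have e3 : ∑ χ : DirichletCharacter ℂ q, ‖∑ n ∈ Ioc m (m + Y), (cL χ n - (if χ = 1 then 1 else 0))‖ ^ 2 ≥ 0 :=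
      sum_nonneg fun _ _ => by positivity
    set P := ∑ χ : DirichletCharacter ℂ q, dd q (ph q a) χ * ∑ n ∈ Ioc m (m + Y), (cL χ n - (if χ = 1 then 1 else 0))
      with hP
    set Q := ∑ n ∈ (Ioc m (m + Y)).filter (fun n => ¬ n.Coprime q),
      (ArithmeticFunction.vonMangoldt n : ℂ) * e ((a : ℝ) * n / q) with hQ
    have e4 : ‖P‖ ^ 2 ≤ L ^ B * ∑ χ : DirichletCharacter ℂ q,
        ‖∑ n ∈ Ioc m (m + Y), (cL χ n - (if χ = 1 then 1 else 0))‖ ^ 2 := by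
      refine e1.trans ?_
      apply mul_le_mul_of_nonneg_right _ e3
      rw [card_univ]
      exact hcardR
    have e5 : ‖P + Q‖ ^ 2 ≤ 2 * ‖P‖ ^ 2 + 2 * ‖Q‖ ^ 2 := by
      have := norm_add_le P Q
      nlinarith [norm_nonneg P, norm_nonneg Q, norm_nonneg (P + Q), sq_nonneg (‖P‖ - ‖Q‖)]
    have e6 : ‖Q‖ ^ 2 ≤ R ^ 2 := by gcongr
    linarith
  refine (sum_le_sum step).trans ?_
  rw [sum_add_distrib, ← mul_sum, ← mul_sum, sum_comm, sum_const, Nat.card_Ioc, nsmul_eq_mul]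
  have h6 : ∑ χ : DirichletCharacter ℂ q, ∑ m ∈ Ioc x (2 * x),
      ‖∑ n ∈ Ioc m (m + Y), (cL χ n - (if χ = 1 then 1 else 0))‖ ^ 2 ≤
      L ^ B * (x * (Y : ℝ) ^ 2 / L ^ (U + 2 * B + 1)) := by
    refine (sum_le_sum (g := fun _ => x * (Y : ℝ) ^ 2 / L ^ (U + 2 * B + 1)) fun χ _ => ?_).trans ?_
    · exact (h1 x hx1 q inferInstance hqB χ Y hY1 hYx).1
    · rw [sum_const, card_univ, nsmul_eq_mul]
      apply mul_le_mul_of_nonneg_right hcardR (by positivity)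
  have h7 : ((2 * x - x : ℕ) : ℝ) = x := by
    rw [show 2 * x - x = x by omega]
  rw [h7]
  have hYU : 400 * L ^ (2 * B + 4) * L ^ U ≤ (Y : ℝ) ^ 2 := by
    calc 400 * L ^ (2 * B + 4) * L ^ U ≤ L * L ^ (2 * B + 4) * L ^ U := by
          gcongr; linarith
      _ = L ^ (2 * B + U + 5) := by ring
      _ ≤ L ^ ((B + U + 3) * 2) := pow_le_pow_right₀ hL1 (by omega)
      _ = (L ^ (B + U + 3)) ^ 2 := by rw [pow_mul]
      _ ≤ _ := by gcongr
  have hx0 : (0 : ℝ) < x := by linarith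
  calc 2 * (L ^ B * ∑ χ : DirichletCharacter ℂ q, ∑ m ∈ Ioc x (2 * x),
      ‖∑ n ∈ Ioc m (m + Y), (cL χ n - (if χ = 1 then 1 else 0))‖ ^ 2) + x * (2 * R ^ 2)
      ≤ 2 * (L ^ B * (L ^ B * (x * (Y : ℝ) ^ 2 / L ^ (U + 2 * B + 1)))) + x * (2 * R ^ 2) := by gcongr
    _ = 2 / L * (x * (Y : ℝ) ^ 2 / L ^ U) + x * (200 * L ^ (2 * B + 4)) := by
        rw [hR]
        field_simp
        ring
    _ ≤ 1 / 2 * (x * (Y : ℝ) ^ 2 / L ^ U) + x * (1 / 2 * ((Y : ℝ) ^ 2 / L ^ U)) := by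
        apply add_le_add
        · apply mul_le_mul_of_nonneg_right _ (by positivity)
          rw [div_le_iff₀ hL0]; linarith
        · apply mul_le_mul_of_nonneg_left _ hx0.le
          have : 400 * L ^ (2 * B + 4) ≤ (Y : ℝ) ^ 2 / L ^ U := by
            rw [le_div_iff₀ (by positivity)]; exact hYU
          linarith
    _ = x * (Y : ℝ) ^ 2 / L ^ U := by ring


theorem sat_M {ϑ : ℝ} (hϑ : 0 < ϑ) (hS : SICt ϑ) (B U : ℕ) : ∃ C X₀ : ℕ, ∀ x : ℕ, X₀ ≤ x → ∀ q : ℕ, 1 ≤ q → (q : ℝ) ≤ Real.log x ^ B →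
    ∀ a Y : ℕ, (x : ℝ) ^ ϑ * Real.log x ^ C ≤ Y → Y ≤ x →
    ∑ m ∈ Finset.Ioc x (2 * x), ‖∑ n ∈ Finset.Ioc m (m + Y),
      ((ArithmeticFunction.moebius n : ℤ) : ℂ) * e ((a : ℝ) * n / q)‖ ^ 2 ≤
    x * (Y : ℝ) ^ 2 / Real.log x ^ U := by
  obtain ⟨C1, X1, h1⟩ := hS (B + 1) (U + 4 * B + 1)
  set V := U + 4 * B + 1 with hV
  obtain ⟨X2, h2⟩ := Pool.Agent.H373R2.T7.ev_log' (5 * B + U + B) 48
  obtain ⟨X3, h3⟩ := Pool.Agent.H373R2.T7.ev_L' (12 * 2 ^ V + 2 ^ (B + 1) + 2 * 2 ^ C1 + 1000)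
  refine ⟨C1 + B + U + 4 * B + 3, max (max X1 (X1 ^ 2)) (max X2 (max X3 4)), fun x hx q hq hqB a Y hY hYx => ?_⟩
  have : NeZero q := ⟨by omega⟩
  have hx1 : X1 ^ 2 ≤ x := le_trans ((le_max_right _ _).trans (le_max_left _ _)) hx
  have hx2 : X2 ≤ x := le_trans ((le_max_left _ _).trans (le_max_right _ _)) hx
  have hx3 : X3 ≤ x := le_trans (((le_max_left _ _).trans (le_max_right _ _)).trans (le_max_right _ _)) hx
  have hx4 : 4 ≤ x := le_trans (((le_max_right _ _).trans (le_max_right _ _)).trans (le_max_right _ _)) hx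
  have hxr : (4 : ℝ) ≤ x := by exact_mod_cast hx4
  have hx0 : (0 : ℝ) < x := by linarith
  have hLbig := h3 x hx3
  have hsq := h2 x hx2
  set L := Real.log x with hLdef
  have p1 : (0 : ℝ) < 12 * 2 ^ V := by positivity
  have p2 : (0 : ℝ) < 2 ^ (B + 1) := by positivity
  have p3 : (0 : ℝ) < 2 * 2 ^ C1 := by positivity
  have hL : 1000 ≤ L := by linarith
  have hL1 : (1 : ℝ) ≤ L := by linarith
  have hL0 : (0 : ℝ) < L := by linarith
  have hsx : (0 : ℝ) < √x := Real.sqrt_pos.2 hx0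
  have hss : √x * √x = x := Real.mul_self_sqrt hx0.le
  have hY2 : L ^ (4 * B + U + 3) ≤ Y := by
    refine le_trans ?_ hY
    have ha : L ^ (4 * B + U + 3) ≤ L ^ (C1 + B + U + 4 * B + 3) := pow_le_pow_right₀ hL1 (by omega)
    have hb : (1 : ℝ) ≤ (x : ℝ) ^ ϑ := Real.one_le_rpow (by linarith) hϑ.le
    have hc : 0 ≤ L ^ (C1 + B + U + 4 * B + 3) := by positivity
    nlinarith
  have hYpos : (0 : ℝ) < Y := lt_of_lt_of_le (by positivity) hY2
  -- the bound for one divisor and one character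
  have main : ∀ g ∈ q.divisors, ∀ χ : DirichletCharacter ℂ q,
      ∑ m ∈ Ioc x (2 * x), ‖∑ k ∈ Ioc (m / g) ((m + Y) / g), cM χ k‖ ^ 2 ≤
        2 * (x * (Y : ℝ) ^ 2 * 2 ^ V / L ^ V + 2 * L ^ B * (Y : ℝ) ^ 2) + 2 * x := by
    intro g hg χ
    rw [Nat.mem_divisors] at hg
    have hg1 : 1 ≤ g := Nat.pos_of_dvd_of_pos hg.1 hq
    have hgq : g ≤ q := Nat.le_of_dvd hq hg.1
    have hgL : (g : ℝ) ≤ L ^ B := le_trans (by exact_mod_cast hgq) hqB
    have hg0 : (0 : ℝ) < g := by exact_mod_cast hg1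
    have hg1r : (1 : ℝ) ≤ g := by exact_mod_cast hg1
    refine (sum_le_sum fun m _ => win_cmp χ g m Y hg1).trans ?_
    rw [sum_add_distrib, ← mul_sum, sum_const, Nat.card_Ioc, nsmul_eq_mul, show 2 * x - x = x by omega]
    have hds := div_sum x g hg1 (fun j => ‖∑ k ∈ Ioc j (j + Y / g), cM χ k‖ ^ 2) (fun _ => by positivity)
    have hdY : ((Y / g : ℕ) : ℝ) ≤ Y / g := Nat.cast_div_le
    have hdY0 : (0 : ℝ) ≤ ((Y / g : ℕ) : ℝ) := Nat.cast_nonneg _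
    have hYg : ((Y / g : ℕ) : ℝ) ^ 2 ≤ (Y : ℝ) ^ 2 / g ^ 2 := by
      rw [← div_pow]; gcongr
    have hYg1 : ((Y / g : ℕ) : ℝ) ^ 2 ≤ (Y : ℝ) ^ 2 := by
      refine hYg.trans (div_le_self (by positivity) ?_)
      exact one_le_pow₀ hg1r
    have ht1 := win_triv χ (x / g) (Y / g)
    have ht2 := win_triv χ (2 * (x / g) + 1) (Y / g)
    -- the size of `x / g`
    have hxg : √x ≤ ((x / g : ℕ) : ℝ) := by
      have b1 : (x : ℝ) / g < ((x / g : ℕ) : ℝ) + 1 := by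
        rw [div_lt_iff₀ hg0]
        have := Nat.lt_div_mul_add (a := x) hg1
        have c1 : (x : ℝ) < ((x / g : ℕ) : ℝ) * g + g := by exact_mod_cast this
        linarith
      have b2 : 48 * L ^ B ≤ √x := by
        refine le_trans ?_ hsq
        have : L ^ B ≤ L ^ (5 * B + U + B) := pow_le_pow_right₀ hL1 (by omega)
        linarith
      have b3 : 2 * √x ≤ x / g := by
        rw [le_div_iff₀ hg0]
        nlinarith
      have b4 : 1 ≤ √x := Real.one_le_sqrt.2 (by linarith)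
      linarith
    have hX1g : X1 ≤ x / g := by
      have b1 : (X1 : ℝ) ≤ √x := by
        apply Real.le_sqrt_of_sq_le
        exact_mod_cast hx1
      exact_mod_cast b1.trans hxg
    set L' := Real.log ((x / g : ℕ) : ℝ) with hL'
    have hL'1 : L / 2 ≤ L' := by
      rw [hLdef, ← Real.log_sqrt hx0.le]
      exact Real.log_le_log hsx hxg
    have hxgx : ((x / g : ℕ) : ℝ) ≤ x / g := Nat.cast_div_le
    have hxgx' : ((x / g : ℕ) : ℝ) ≤ x := hxgx.trans (div_le_self hx0.le hg1r)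
    have hL'2 : L' ≤ L := Real.log_le_log (hsx.trans_le hxg) hxgx'
    have hL'0 : 0 < L' := by linarith
    have hqB' : (q : ℝ) ≤ L' ^ (B + 1) := by
      refine hqB.trans ?_
      calc L ^ B ≤ L ^ B * (L / 2 ^ (B + 1)) := by
            have : (1 : ℝ) ≤ L / 2 ^ (B + 1) := by
              rw [le_div_iff₀ (by positivity)]; linarith
            have : 0 ≤ L ^ B := by positivity
            nlinarith
        _ = (L / 2) ^ (B + 1) := by rw [div_pow]; ring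
        _ ≤ L' ^ (B + 1) := by gcongr
    have hY' : ((x / g : ℕ) : ℝ) ^ ϑ * L' ^ C1 ≤ ((Y / g : ℕ) : ℝ) := by
      have b1 : (Y : ℝ) / g < ((Y / g : ℕ) : ℝ) + 1 := by
        rw [div_lt_iff₀ hg0]
        have := Nat.lt_div_mul_add (a := Y) hg1
        have c1 : (Y : ℝ) < ((Y / g : ℕ) : ℝ) * g + g := by exact_mod_cast this
        linarith
      have b2 : ((x / g : ℕ) : ℝ) ^ ϑ * L' ^ C1 ≤ (x : ℝ) ^ ϑ * L ^ C1 := by
        gcongr
      have hb : (1 : ℝ) ≤ (x : ℝ) ^ ϑ := Real.one_le_rpow (by linarith) hϑ.le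
      have hb' : (1 : ℝ) ≤ L ^ C1 := one_le_pow₀ hL1
      have b3 : 2 * ((x : ℝ) ^ ϑ * L ^ C1) ≤ Y / g := by
        rw [le_div_iff₀ hg0]
        refine le_trans ?_ hY
        calc 2 * ((x : ℝ) ^ ϑ * L ^ C1) * g ≤ L * ((x : ℝ) ^ ϑ * L ^ C1) * L ^ B := by
              gcongr; linarith
          _ = (x : ℝ) ^ ϑ * L ^ (C1 + B + 1) := by ring
          _ ≤ _ := by
              have : L ^ (C1 + B + 1) ≤ L ^ (C1 + B + U + 4 * B + 3) := pow_le_pow_right₀ hL1 (by omega)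
              gcongr
      have b4 : 1 ≤ (x : ℝ) ^ ϑ * L ^ C1 := by nlinarith
      linarith
    have hc := (h1 (x / g) hX1g q inferInstance hqB' χ (Y / g) hY' (Nat.div_le_div_right hYx)).2
    have hc' : ((x / g : ℕ) : ℝ) * ((Y / g : ℕ) : ℝ) ^ 2 / L' ^ V ≤ x / g * (Y : ℝ) ^ 2 * 2 ^ V / L ^ V := by
      calc ((x / g : ℕ) : ℝ) * ((Y / g : ℕ) : ℝ) ^ 2 / L' ^ V ≤ (x / g) * (Y : ℝ) ^ 2 / (L / 2) ^ V := by
            gcongr
        _ = _ := by rw [div_pow]; field_simp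
    have hsumb : ∑ m ∈ Ioc x (2 * x), ‖∑ k ∈ Ioc (m / g) (m / g + Y / g), cM χ k‖ ^ 2 ≤
        x * (Y : ℝ) ^ 2 * 2 ^ V / L ^ V + 2 * L ^ B * (Y : ℝ) ^ 2 := by
      refine hds.trans ?_
      calc (g : ℝ) * (‖∑ k ∈ Ioc (x / g) (x / g + Y / g), cM χ k‖ ^ 2 +
            ∑ m ∈ Ioc (x / g) (2 * (x / g)), ‖∑ k ∈ Ioc m (m + Y / g), cM χ k‖ ^ 2 +
            ‖∑ k ∈ Ioc (2 * (x / g) + 1) (2 * (x / g) + 1 + Y / g), cM χ k‖ ^ 2)
          ≤ g * ((Y : ℝ) ^ 2 + x / g * (Y : ℝ) ^ 2 * 2 ^ V / L ^ V + (Y : ℝ) ^ 2) := by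
            exact mul_le_mul_of_nonneg_left
              (add_le_add (add_le_add (ht1.trans hYg1) (hc.trans hc')) (ht2.trans hYg1)) hg0.le
        _ = x * (Y : ℝ) ^ 2 * 2 ^ V / L ^ V + 2 * g * (Y : ℝ) ^ 2 := by
            field_simp
            ring
        _ ≤ _ := by gcongr
    linarith
  -- summing up
  have hcardχ : (Fintype.card (DirichletCharacter ℂ q) : ℝ) ≤ L ^ B :=
    le_trans (by exact_mod_cast card_char_le q) hqB
  have hcardd : (q.divisors.card : ℝ) ≤ L ^ B := by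
    refine le_trans ?_ hqB
    exact_mod_cast Nat.card_divisors_le_self q
  set S := q.divisors ×ˢ (univ : Finset (DirichletCharacter ℂ q)) with hSdef
  have hcardS : (S.card : ℝ) ≤ L ^ (2 * B) := by
    rw [hSdef, card_product, card_univ]
    push_cast
    calc (q.divisors.card : ℝ) * Fintype.card (DirichletCharacter ℂ q) ≤ L ^ B * L ^ B := by gcongr
      _ = _ := by ring
  have step : ∀ m ∈ Ioc x (2 * x), ‖∑ n ∈ Finset.Ioc m (m + Y),
      ((ArithmeticFunction.moebius n : ℤ) : ℂ) * e ((a : ℝ) * n / q)‖ ^ 2 ≤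
      L ^ (2 * B) * ∑ i ∈ S, ‖∑ k ∈ Ioc (m / i.1) ((m + Y) / i.1), cM i.2 k‖ ^ 2 := by
    intro m _
    rw [win_M q a m Y]
    refine (norm_sum_sq_le S _ _ ?_).trans ?_
    · intro i _
      rw [norm_mul]
      have e1 := dd_norm q (ph q (a * i.1)) (fun n => (ph_norm q (a * i.1) n).le) i.2
      have e2 : ‖((ArithmeticFunction.moebius i.1 : ℤ) : ℂ)‖ ≤ 1 := by
        rw [Complex.norm_intCast]
        exact_mod_cast ArithmeticFunction.abs_moebius_le_one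
      nlinarith [norm_nonneg ((ArithmeticFunction.moebius i.1 : ℤ) : ℂ), norm_nonneg (dd q (ph q (a * i.1)) i.2)]
    · apply mul_le_mul_of_nonneg_right hcardS
      exact sum_nonneg fun _ _ => by positivity
  refine (sum_le_sum step).trans ?_
  rw [← mul_sum, sum_comm]
  have h6 : ∑ i ∈ S, ∑ m ∈ Ioc x (2 * x), ‖∑ k ∈ Ioc (m / i.1) ((m + Y) / i.1), cM i.2 k‖ ^ 2 ≤
      L ^ (2 * B) * (2 * (x * (Y : ℝ) ^ 2 * 2 ^ V / L ^ V + 2 * L ^ B * (Y : ℝ) ^ 2) + 2 * x) := by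
    refine (sum_le_sum fun i hi => ?_).trans (b := ∑ _i ∈ S,
      (2 * (x * (Y : ℝ) ^ 2 * 2 ^ V / L ^ V + 2 * L ^ B * (Y : ℝ) ^ 2) + 2 * x)) ?_
    · rw [hSdef, mem_product] at hi
      exact main i.1 hi.1 i.2
    · rw [sum_const, nsmul_eq_mul]
      apply mul_le_mul_of_nonneg_right hcardS
      positivity
  have hsq2 : 48 * L ^ (5 * B + U) ≤ x := by
    have b1 : 48 * L ^ (5 * B + U) ≤ √x := by
      refine le_trans ?_ hsq
      have : L ^ (5 * B + U) ≤ L ^ (5 * B + U + B) := pow_le_pow_right₀ hL1 (by omega)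
      linarith
    have b4 : 1 ≤ √x := Real.one_le_sqrt.2 (by linarith)
    nlinarith
  have t1 : L ^ (4 * B) * (2 * (x * (Y : ℝ) ^ 2 * 2 ^ V / L ^ V)) ≤ 1 / 3 * (x * (Y : ℝ) ^ 2 / L ^ U) := by
    have e1 : L ^ (4 * B) * (2 * (x * (Y : ℝ) ^ 2 * 2 ^ V / L ^ V)) = (2 * 2 ^ V / L) * (x * (Y : ℝ) ^ 2 / L ^ U) := by
      rw [hV]
      field_simp
      ring
    rw [e1]
    apply mul_le_mul_of_nonneg_right _ (by positivity)
    rw [div_le_iff₀ hL0]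
    linarith
  have t2 : L ^ (4 * B) * (2 * (2 * L ^ B * (Y : ℝ) ^ 2)) ≤ 1 / 3 * (x * (Y : ℝ) ^ 2 / L ^ U) := by
    rw [mul_div_assoc', le_div_iff₀ (by positivity)]
    have e1 : L ^ (4 * B) * (2 * (2 * L ^ B * (Y : ℝ) ^ 2)) * L ^ U = (4 * L ^ (5 * B + U)) * (Y : ℝ) ^ 2 := by ring
    have e2 : 1 / 3 * (x * (Y : ℝ) ^ 2) = (x / 3) * (Y : ℝ) ^ 2 := by ring
    rw [e1, e2]
    apply mul_le_mul_of_nonneg_right _ (by positivity)
    have : 0 ≤ L ^ (5 * B + U) := by positivity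
    linarith
  have t3 : L ^ (4 * B) * (2 * x) ≤ 1 / 3 * (x * (Y : ℝ) ^ 2 / L ^ U) := by
    rw [mul_div_assoc', le_div_iff₀ (by positivity)]
    have e1 : L ^ (4 * B) * (2 * x) * L ^ U = (2 * L ^ (4 * B + U)) * x := by ring
    have e2 : 1 / 3 * (x * (Y : ℝ) ^ 2) = ((Y : ℝ) ^ 2 / 3) * x := by ring
    rw [e1, e2]
    apply mul_le_mul_of_nonneg_right _ hx0.le
    have c1 : 6 * L ^ (4 * B + U) ≤ (Y : ℝ) ^ 2 := by
      calc 6 * L ^ (4 * B + U) ≤ L * L ^ (4 * B + U) := by gcongr; linarith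
        _ = L ^ (4 * B + U + 1) := by ring
        _ ≤ L ^ ((4 * B + U + 3) * 2) := pow_le_pow_right₀ hL1 (by omega)
        _ = (L ^ (4 * B + U + 3)) ^ 2 := by rw [pow_mul]
        _ ≤ _ := by gcongr
    linarith
  calc L ^ (2 * B) * ∑ i ∈ S, ∑ m ∈ Ioc x (2 * x), ‖∑ k ∈ Ioc (m / i.1) ((m + Y) / i.1), cM i.2 k‖ ^ 2
      ≤ L ^ (2 * B) * (L ^ (2 * B) * (2 * (x * (Y : ℝ) ^ 2 * 2 ^ V / L ^ V + 2 * L ^ B * (Y : ℝ) ^ 2) + 2 * x)) := by
        gcongr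
    _ = L ^ (4 * B) * (2 * (x * (Y : ℝ) ^ 2 * 2 ^ V / L ^ V)) + L ^ (4 * B) * (2 * (2 * L ^ B * (Y : ℝ) ^ 2)) +
        L ^ (4 * B) * (2 * x) := by ring
    _ ≤ 1 / 3 * (x * (Y : ℝ) ^ 2 / L ^ U) + 1 / 3 * (x * (Y : ℝ) ^ 2 / L ^ U) + 1 / 3 * (x * (Y : ℝ) ^ 2 / L ^ U) := by
        gcongr
    _ = _ := by ring

theorem sat : S_SAT := by
  intro ϑ hϑ _ hS B U
  obtain ⟨C1, X1, h1⟩ := sat_L hϑ hS B U
  obtain ⟨C2, X2, h2⟩ := sat_M hϑ hS B U
  refine ⟨max C1 C2, max (max X1 X2) 3, fun x hx q hq hqB a Y hY hYx => ?_⟩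
  have hx1 : X1 ≤ x := le_trans ((le_max_left _ _).trans (le_max_left _ _)) hx
  have hx2 : X2 ≤ x := le_trans ((le_max_right _ _).trans (le_max_left _ _)) hx
  have hx3 : (3 : ℝ) ≤ x := by exact_mod_cast (le_max_right _ _).trans hx
  have hL1 : 1 ≤ Real.log x := by
    rw [← Real.log_exp 1]
    apply Real.log_le_log (Real.exp_pos _)
    have := Real.exp_one_lt_d9
    linarith
  constructor
  · refine h1 x hx1 q hq hqB a Y (le_trans ?_ hY) hYx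
    have : Real.log x ^ C1 ≤ Real.log x ^ (max C1 C2) := pow_le_pow_right₀ hL1 (le_max_left _ _)
    gcongr
  · refine h2 x hx2 q hq hqB a Y (le_trans ?_ hY) hYx
    have : Real.log x ^ C2 ≤ Real.log x ^ (max C1 C2) := pow_le_pow_right₀ hL1 (le_max_right _ _)
    gcongr

end Pool.Agent.V5helper39.CR6
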